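import Mathlib
import Pool.Agent.Run7.h767.ST.Tht

/-!
# The leading term at `0` of Stickelberger functions of order `r`, by prime ideals

Let `K` be a number field (`F` on the page), `𝔣` an ideal, `0 ≠ 𝔣 ≠ 𝓞 K`, `P` a set of real embeddings
of `K`, `A` a homomorphism from the ray class group modulo `𝔣 P` to a finite commutative group `G`
(for an abelian extension `H` with the group `G` and the modulus `𝔣 P`: the Artin map), `S` the set of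
the archimedean places and of the prime divisors of `𝔣`, and `T` a finite set of primes outside of `S`.

(1) The functions `L_(S,T)(χ, s)` and the Stickelberger function `Θ_(S,T)(s) ∈ ℂ[G]`,
`χ(Θ(s)) = L_(S,T)(χ⁻¹, s)`, have meromorphic continuations, analytic at `0`.

(2) `L_(S,T)(χ, s)` vanishes at `0` to the order at least `rank P`, the number of the archimedean
places which are complex or real outside of `P`.

(3) For every `n` such that all the `L_(S,T)(χ, s)` vanish to the order at least `n` at `0` (in Q1 `n`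
is `r`, the number of the places in `S` which split completely; `n = rank P` is possible by (2)), every
`g ∈ G` and `γ > π / 2`, the coefficient of `g` in
`Θ^(n)(0) = lim_(s → 0) s^(-n) Θ_(S,T)(s)` is

  `t^n e^(-n Λ_γ) (1 / |G|) ∑_χ conj χ(g) ∏_(v ∈ T) (1 - χ⁻¹(v) N(v)) exp (∑_τ χ⁻¹(τ) S_τ(t)) + O(1 / t)`,

  `S_τ(t) = ∑_(𝔭, k : A(𝔭 ^ k) = τ) (1 / k) e^(i γ u) / Γ(1 + u)`, `u = k log N(𝔭) / t`,

`Λ_γ = ∫_0^∞ (e^(-t) - e^(i γ t) / Γ(1 + t)) dt / t`. This is unconditional; no continuation and no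
zeros occur on the right: the prime ideals, sorted by their classes (Frobenius automorphisms), are
counted with the weight `1` (the point `s = 0`).

In Q1 (Rubin) the question is whether `φ(λ(u)) = Θ^(r)(0)` for some `u` in Rubin's lattice; (3) gives
the right side by prime ideals.
-/

set_option autoImplicit false
set_option linter.unusedSectionVars false

namespace Pool.Agent.Results.MP_dd9835_nt.LeadingTermByPrimes

open NumberField Filter Topology Asymptotics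

section defs

variable {K : Type} [Field K] [NumberField K] {G : Type} [Group G]

/-- `x` is positive at the real embeddings in `P`. -/
def Pos (P : Set (K →+* ℝ)) (x : 𝓞 K) : Prop := ∀ σ ∈ P, 0 < σ (x : K)

/-- On the ideals prime to `𝔣` the function `A` is a homomorphism from the ray class group modulo
`𝔣 P` to `G` (its values at the other ideals are irrelevant). -/
structure IsRayHom (𝔣 : Ideal (𝓞 K)) (P : Set (K →+* ℝ)) (A : Ideal (𝓞 K) → G) : Prop where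
  mul : ∀ 𝔞 𝔟, IsCoprime 𝔞 𝔣 → IsCoprime 𝔟 𝔣 → A (𝔞 * 𝔟) = A 𝔞 * A 𝔟
  ray : ∀ x : 𝓞 K, x - 1 ∈ 𝔣 → Pos P x → A (Ideal.span {x}) = 1

/-- `∑_(𝔞 prime to 𝔣) χ(A(𝔞)) N(𝔞)^(-s) = ∏_(v ∤ 𝔣) (1 - χ(A(v)) N(v)^(-s))⁻¹`. -/
noncomputable def lser (𝔣 : Ideal (𝓞 K)) (A : Ideal (𝓞 K) → G) (χ : G →* ℂˣ) (s : ℂ) : ℂ :=
  ∑' 𝔞 : {𝔞 : Ideal (𝓞 K) // IsCoprime 𝔞 𝔣},
    ((χ (A 𝔞.1) : ℂˣ) : ℂ) * ((Ideal.absNorm 𝔞.1 : ℕ) : ℂ) ^ (-s)

/-- `∏_(v ∈ T) (1 - χ(A(v)) N(v)^(1 - s))`. -/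
noncomputable def tfac (T : Finset (Ideal (𝓞 K))) (A : Ideal (𝓞 K) → G) (χ : G →* ℂˣ) (s : ℂ) :
    ℂ :=
  ∏ v ∈ T, (1 - ((χ (A v) : ℂˣ) : ℂ) * ((Ideal.absNorm v : ℕ) : ℂ) ^ (1 - s))

/-- `Z` is the continuation of `L_(S,T)(χ, s)`, `S` the archimedean places and the primes which
divide `𝔣`. -/
def IsL (𝔣 : Ideal (𝓞 K)) (T : Finset (Ideal (𝓞 K))) (A : Ideal (𝓞 K) → G) (χ : G →* ℂˣ)
    (Z : ℂ → ℂ) : Prop :=
  (∀ s, MeromorphicAt Z s) ∧ AnalyticAt ℂ Z 0 ∧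
    ∀ s : ℂ, 1 < s.re → Z s = tfac T A χ s * lser 𝔣 A χ s

/-- `Z` vanishes to the order at least `n` at `0`: `Z(s) = s^n g(s)` with `g` analytic at `0`. -/
def VanishTo (n : ℕ) (Z : ℂ → ℂ) : Prop :=
  ∃ g : ℂ → ℂ, AnalyticAt ℂ g 0 ∧ ∀ᶠ s in 𝓝 (0 : ℂ), Z s = s ^ n * g s

/-- `Θ(s) = ∑_g Θ(s)(g) g` is the continuation of the Stickelberger function `Θ_(S,T)(s) ∈ ℂ[G]`:
`χ(Θ(s)) = L_(S,T)(χ⁻¹, s)` for every character `χ` of `G`. -/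
def IsStickelberger (𝔣 : Ideal (𝓞 K)) (T : Finset (Ideal (𝓞 K))) (A : Ideal (𝓞 K) → G)
    (Θ : ℂ → G → ℂ) : Prop :=
  (∀ g s, MeromorphicAt (fun z => Θ z g) s) ∧ (∀ g, AnalyticAt ℂ (fun z => Θ z g) 0) ∧
    ∀ (χ : G →* ℂˣ) (s : ℂ), 1 < s.re →
      ∑ᶠ g : G, ((χ g : ℂˣ) : ℂ) * Θ s g = tfac T A χ⁻¹ s * lser 𝔣 A χ⁻¹ s

open Classical in
/-- `1 / k` if `𝔞 = 𝔭 ^ k` with a prime ideal `𝔭` and `k ≥ 1`, and `0` if `𝔞` is not such a power: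
`log N(rad 𝔞) / log N(𝔞)`. -/
noncomputable def wt (𝔞 : Ideal (𝓞 K)) : ℝ :=
  if IsPrimePow 𝔞 then Real.log (Ideal.absNorm 𝔞.radical) / Real.log (Ideal.absNorm 𝔞) else 0

/-- `(1 / k) e^(i γ u) / Γ(1 + u)`, `u = log N(𝔞) / T`, for `𝔞 = 𝔭 ^ k`. -/
noncomputable def term (γ T : ℝ) (𝔞 : Ideal (𝓞 K)) : ℂ :=
  (wt 𝔞 : ℂ) * Complex.exp ((γ * (Real.log (Ideal.absNorm 𝔞) / T) : ℝ) * Complex.I) *
    ((Real.Gamma (1 + Real.log (Ideal.absNorm 𝔞) / T))⁻¹ : ℝ)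

/-- `S_τ(T)`: the sum over the powers of prime ideals prime to `𝔣` with `A(𝔭 ^ k) = τ`. -/
noncomputable def primeSum (𝔣 : Ideal (𝓞 K)) (A : Ideal (𝓞 K) → G) (τ : G) (γ T : ℝ) : ℂ :=
  ∑' 𝔞 : {𝔞 : Ideal (𝓞 K) // IsCoprime 𝔞 𝔣 ∧ A 𝔞 = τ}, term γ T 𝔞.1

/-- `Λ_γ = ∫_0^∞ (e^(-t) - e^(i γ t) / Γ(1 + t)) dt / t`. -/
noncomputable def Lam (γ : ℝ) : ℂ := ∫ t in Set.Ioi (0 : ℝ),
  (Complex.exp (-(t : ℂ)) - Complex.exp ((γ * t : ℝ) * Complex.I) *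
    ((Real.Gamma (1 + t))⁻¹ : ℝ)) / t

/-- `E_g(t) = t^n e^(-n Λ_γ) (1 / |G|) ∑_χ conj χ(g) ∏_(v ∈ T) (1 - χ⁻¹(A(v)) N(v))
exp (∑_τ χ⁻¹(τ) S_τ(t))`, `χ` the characters of `G`. -/
noncomputable def approx (n : ℕ) (𝔣 : Ideal (𝓞 K)) (T : Finset (Ideal (𝓞 K)))
    (A : Ideal (𝓞 K) → G) (g : G) (γ t : ℝ) : ℂ :=
  (t : ℂ) ^ n * Complex.exp (-(n * Lam γ)) * ((Nat.card G : ℂ)⁻¹ *
    ∑ᶠ χ : G →* ℂˣ, (starRingEnd ℂ) ((χ g : ℂˣ) : ℂ) * tfac T A χ⁻¹ 0 *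
      Complex.exp (∑ᶠ τ : G, ((χ⁻¹ τ : ℂˣ) : ℂ) * primeSum 𝔣 A τ γ t))

/-- The number of the archimedean places which are complex or real outside of `P` (these split
completely in the abelian extensions with the modulus `𝔣 P`). -/
noncomputable def rank (P : Set (K →+* ℝ)) : ℕ :=
  Set.ncard {w : InfinitePlace K | w.IsComplex ∨
    ∃ σ : K →+* ℝ, σ ∉ P ∧ InfinitePlace.mk (Complex.ofRealHom.comp σ) = w}

end defs

section proofs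

variable {K : Type} [Field K] [NumberField K]

open Classical in
lemma term_eq (γ T : ℝ) (𝔞 : Ideal (𝓞 K)) : term γ T 𝔞 = Run7.h767.ST.tm γ T 𝔞 := by
  have h : (wt 𝔞 : ℝ) = Pool.Agent.Y773.VM 𝔞 / Run7.h767.ST.lg 𝔞 := by
    unfold wt Pool.Agent.Y773.VM Run7.h767.ST.lg
    split_ifs
    · rfl
    · rw [zero_div]
  unfold term
  rw [h]
  rfl

lemma approx_eq {G : Type} [Group G] (n : ℕ) (𝔣 : Ideal (𝓞 K)) (T : Finset (Ideal (𝓞 K)))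
    (A : Ideal (𝓞 K) → G) (g : G) (γ t : ℝ) :
    approx n 𝔣 T A g γ t = Run7.h767.ST.apT n 𝔣 T A g γ t := by
  have h : ∀ τ : G, primeSum 𝔣 A τ γ t = Run7.h767.ST.SG 𝔣 A τ γ t := by
    intro τ
    unfold primeSum Run7.h767.ST.SG
    exact tsum_congr fun 𝔞 => term_eq γ t 𝔞.1
  unfold approx Run7.h767.ST.apT
  simp only [h]
  rfl

end proofs

/-- See the header. -/
theorem result (K : Type) [Field K] [NumberField K] (P : Set (K →+* ℝ)) (𝔣 : Ideal (𝓞 K))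
    (hbot : 𝔣 ≠ ⊥) (htop : 𝔣 ≠ ⊤) (G : Type) [Group G] [Finite G] (hG : ∀ a b : G, a * b = b * a)
    (A : Ideal (𝓞 K) → G) (hA : IsRayHom 𝔣 P A) (T : Finset (Ideal (𝓞 K)))
    (hT : ∀ v ∈ T, v.IsPrime ∧ v ≠ ⊥ ∧ IsCoprime v 𝔣) :
    -- (1) the continuations
    (∃ Θ, IsStickelberger 𝔣 T A Θ) ∧
    -- (2) the order at `0`
    (∀ χ : G →* ℂˣ, (∃ Z, IsL 𝔣 T A χ Z) ∧ ∀ Z, IsL 𝔣 T A χ Z → VanishTo (rank P) Z) ∧
    -- (3) the leading term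
    ∀ n : ℕ, (∀ (χ : G →* ℂˣ) Z, IsL 𝔣 T A χ Z → VanishTo n Z) →
      ∀ Θ, IsStickelberger 𝔣 T A Θ → ∀ g : G, ∃ θ : ℂ,
        Tendsto (fun s : ℂ => (s ^ n)⁻¹ * Θ s g) (𝓝[≠] 0) (𝓝 θ) ∧
        ∀ γ : ℝ, Real.pi / 2 < γ →
          (∀ t > 0, Summable fun 𝔞 : Ideal (𝓞 K) => ‖term γ t 𝔞‖) ∧
          (fun t : ℝ => approx n 𝔣 T A g γ t - θ) =O[atTop] fun t : ℝ => 1 / t := by
  have hT' : ∀ v ∈ T, v.IsPrime ∧ v ≠ ⊥ := fun v hv => ⟨(hT v hv).1, (hT v hv).2.1⟩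
  have hA' : Run7.h767.ST.IsArt 𝔣 P A := ⟨hA.mul, hA.ray⟩
  refine ⟨Run7.h767.ST.exists_Th hbot htop hG hA' hT', fun χ =>
    Run7.h767.ST.van_rk hbot htop hA' hT' χ, fun n hn Θ hΘ g => ?_⟩
  obtain ⟨Q, hQ, hΘQ, h⟩ := Run7.h767.ST.theta_lead hbot htop hG hA' hT' n hn hΘ g
  refine ⟨Q 0, Run7.h767.ST.lim_quot hQ hΘQ, fun γ hγ => ⟨fun t ht => ?_, ?_⟩⟩
  · exact (Run7.h767.ST.tm_summable γ ht).congr fun 𝔞 => by rw [term_eq]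
  · exact (h γ hγ).congr_left fun t => by rw [approx_eq]

end Pool.Agent.Results.MP_dd9835_nt.LeadingTermByPrimes
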