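import Pool.Agent.Run7.h97.RB.D

/-!
# MP_dd9835_nt: Rubin's conjecture for `S` and for the sets `S ∪ {v}`

Let `H / F` be a finite abelian extension of number fields with group `G`, and `S`, `T`,
`v_1, ..., v_r`, `w_i` data of Rubin's conjecture (`RubinData`, `Rubin T`). For a prime ideal
`v ∉ S ∪ T` with Frobenius automorphism `σ_v ≠ 1` let `addPrime D v` be the data for `S ∪ {v}` (same
`r` and `w_i`). `RubinUpTo D M T` is Rubin's conjecture up to factors in a multiplicative set `M` of
natural numbers: Rubin's conjecture itself for `M = {1}`, its `p`-part if `M` is the set of the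
numbers prime to `p`.

The set of the `v` for which the conjecture holds for `S ∪ {v}` is given by a subgroup `G'` of `G`:
it holds if and only if `σ_v ∈ G'`. It fails for a set of prime ideals `v` of density
`1 - 1 / (G : G')`.

Suppose that `S` has at least `r + 2` places and that an element `m` of `M` is an integral
combination of the orders of the decomposition groups of the places of `S ∖ {v_1, ..., v_r}`. Then
the conjecture holds for `S` if and only if `G' = G`. So if it fails for `S` it fails for `S ∪ {v}`
for at least half of all prime ideals `v`, and for every `n` it fails for some set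
`S ∪ {v_1, ..., v_n}`.
-/

set_option autoImplicit false

open NumberField IsDedekindDomain Filter Topology

noncomputable section

namespace Pool.Agent.Results.MP_dd9835_nt.SubgroupOfFrobenii

open Pool.Agent.K3h30.RS Pool.Agent.Run7.h97.RB

/-- The subgroup of the Frobenius automorphisms of the prime ideals `v` for which Rubin's conjecture
holds for `S ∪ {v}`. -/
theorem result {F H G : Type} [Field F] [NumberField F] [Field H] [NumberField H] [Algebra F H]
    [CommGroup G] [Finite G] [MulSemiringAction G H] [IsGaloisGroup G F H]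
    (D : RubinData F H G) (T : Finset (HeightOneSpectrum (𝓞 F))) (hT : Disjoint D.S T) :
    (∀ D' : RubinData F H G, RubinUpTo D' ⊥ T ↔ D'.Rubin T) ∧
    ∀ M : Submonoid ℕ, ∃ G' : Subgroup G,
      (∀ (v : HeightOneSpectrum (𝓞 F)) (hv : v ∉ D.S) (h1 : D.σ v ≠ 1), v ∉ T →
        (RubinUpTo (addPrime D v hv h1) M T ↔ D.σ v ∈ G')) ∧
      Tendsto (fun X : ℕ => (Nat.card {v : HeightOneSpectrum (𝓞 F) //
          Ideal.absNorm v.asIdeal ≤ X ∧ v ∉ T ∧
            ∃ (hv : v ∉ D.S) (h1 : D.σ v ≠ 1), ¬ RubinUpTo (addPrime D v hv h1) M T} : ℝ) /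
          (Nat.primeCounting X : ℝ)) atTop (𝓝 (1 - (Nat.card G' : ℝ) / Nat.card G)) ∧
      (RubinUpTo D M T → G' = ⊤) ∧
      (Two D → ∀ m ∈ M, (m : ℤ) ∈ Ideal.span (decCards D) →
        (G' = ⊤ → RubinUpTo D M T) ∧
        (¬ RubinUpTo D M T → 2 * Nat.card G' ≤ Nat.card G) ∧
        ∀ n : ℕ, (∀ D' : RubinData F H G, Larger T D n D' → RubinUpTo D' M T) →
          RubinUpTo D M T) ∧
      (Two D → D.Stark T → ∀ u : Place H, Other D u → Nat.card (Dec G u) ∈ M → Dec G u ≤ G' →
        RubinUpTo D M T) := by
  classical
  refine ⟨fun D' => rubinUpTo_bot D' T, fun M => ?_⟩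
  have hmem := fun (v : HeightOneSpectrum (𝓞 F)) (hv : v ∉ D.S) (h1 : D.σ v ≠ 1) (hvT : v ∉ T) =>
    mem_goodGroup D M T hT hv h1 hvT
  have hfull : RubinUpTo D M T → goodGroup D M T hT = ⊤ := by
    intro h
    rw [eq_top_iff]
    rintro g -
    by_cases hg : g = 1
    · rw [hg]
      exact (goodGroup D M T hT).one_mem
    · obtain ⟨v, hv, hvT, hvg⟩ := exists_frob_prime D T g
      have h1 : D.σ v ≠ 1 := by
        rw [hvg]
        exact hg
      rw [← hvg]
      exact (hmem v hv h1 hvT).1 (rubin_add D M T hv h1 h)
  refine ⟨goodGroup D M T hT, hmem, ?_, hfull, ?_, ?_⟩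
  · refine dens_frob D (goodGroup D M T hT) _ (D.S ∪ T) ?_
    intro v hv
    rw [Finset.mem_union, not_or] at hv
    constructor
    · rintro ⟨-, hv', h1, h⟩ h3
      exact h ((hmem v hv' h1 hv.2).2 h3)
    · intro h
      have h1 : D.σ v ≠ 1 := by
        intro h1
        apply h
        rw [h1]
        exact (goodGroup D M T hT).one_mem
      exact ⟨hv.2, hv.1, h1, fun h3 => h ((hmem v hv.1 h1 hv.2).1 h3)⟩
  · intro h2 m hm hspan
    have hback : goodGroup D M T hT = ⊤ → RubinUpTo D M T := by
      intro h
      refine main_closure D M T hT h2 m hm hspan Set.univ Subgroup.closure_univ ?_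
      intro g _ hg
      have h3 : g ∈ goodGroup D M T hT := by
        rw [h]
        exact Subgroup.mem_top g
      rcases h3 with h3 | h3
      · exact absurd h3 hg
      · exact h3
    refine ⟨hback, ?_, ?_⟩
    · intro h
      have h3 : (goodGroup D M T hT).index ≠ 1 := by
        intro h4
        exact h (hback (Subgroup.index_eq_one.1 h4))
      have h4 := (goodGroup D M T hT).card_mul_index
      have h5 : (goodGroup D M T hT).index ≠ 0 := Subgroup.index_ne_zero_of_finite
      have h6 : 2 ≤ (goodGroup D M T hT).index := by omega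
      calc 2 * Nat.card (goodGroup D M T hT) =
          Nat.card (goodGroup D M T hT) * 2 := by ring
        _ ≤ Nat.card (goodGroup D M T hT) * (goodGroup D M T hT).index :=
          Nat.mul_le_mul_left _ h6
        _ = Nat.card G := h4
    · intro n h
      exact main_large M T m hm n D hT h2 hspan h
  · intro h2 hS u hu hM hle
    refine stark_step D M T hT h2 hS hu hM ?_
    intro g hg hg1
    rcases hle hg with h3 | h3
    · exact absurd h3 hg1
    · exact h3

end Pool.Agent.Results.MP_dd9835_nt.SubgroupOfFrobenii
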